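import Pool.Agent.H653Z.HB.Defs

set_option autoImplicit false
open MeasureTheory Filter Topology

namespace Pool.Agent.H653Z.HB

namespace H732

theorem haar_ball (x : T) (r : ℝ) (h0 : 0 ≤ r) (h1 : 2 * r ≤ 1) :
    haar.real (Metric.closedBall x r) = 2 * r := by
  have h := AddCircle.volume_closedBall (T := 1) (x := x) r
  rw [AddCircle.volume_eq_smul_haarAddCircle, ENNReal.ofReal_one, one_smul, min_eq_right h1] at h
  rw [measureReal_def]
  change (AddCircle.haarAddCircle (Metric.closedBall x r)).toReal = _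
  rw [h, ENNReal.toReal_ofReal (by linarith)]

theorem norm_pt (q : ℕ) [NeZero q] (s : ZMod q) (hs : s ≠ 0) :
    1 / (q : ℝ) ≤ ‖(ZMod.toAddCircle s : T)‖ := by
  have hq : 0 < q := Nat.pos_of_ne_zero (NeZero.ne q)
  have h := AddCircle.norm_div_natCast (p := (1 : ℝ)) (m := s.val) (n := q)
  rw [mul_one, one_mul] at h
  rw [ZMod.toAddCircle_apply, h]
  have h1 : s.val < q := ZMod.val_lt s
  have h2 : s.val ≠ 0 := fun h => hs ((ZMod.val_eq_zero s).mp h)
  rw [Nat.mod_eq_of_lt h1]
  have h3 : 1 ≤ min s.val (q - s.val) := by omega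
  have h4 : (1 : ℝ) ≤ ((min s.val (q - s.val) : ℕ) : ℝ) := by exact_mod_cast h3
  gcongr

theorem fourier_pt (q : ℕ) [NeZero q] (κ : ℤ) (s : ZMod q) :
    fourier κ (ZMod.toAddCircle s : T) = ZMod.stdAddChar ((κ : ZMod q) * s) := by
  rw [fourier_apply, ZMod.stdAddChar_apply, ← zsmul_eq_mul, ← map_zsmul]
  rfl

theorem fourier_sub (κ : ℤ) (z w : T) : fourier κ (z - w) = fourier κ z * fourier (-κ) w := by
  rw [fourier_apply, fourier_apply, fourier_apply, smul_sub, sub_eq_add_neg, AddCircle.toCircle_add,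
    neg_smul]
  rfl

theorem norm_fourier_pt (κ : ℤ) (z : T) : ‖fourier κ z‖ = 1 := by
  rw [fourier_apply]; exact Circle.norm_coe _

theorem fourier_lip0 (z : T) : ‖fourier 1 z - 1‖ ≤ 2 * Real.pi * ‖z‖ := by
  induction z using QuotientAddGroup.induction_on with
  | H x =>
    have e : ((x : ℝ) : T) = ((x - round x : ℝ) : T) := by
      rw [AddCircle.coe_sub]
      have : (((round x : ℤ) : ℝ) : T) = 0 := by
        rw [AddCircle.coe_eq_zero_iff]; exact ⟨round x, by simp⟩
      rw [this, sub_zero]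
    have hn : ‖((x : ℝ) : T)‖ = |x - round x| := UnitAddCircle.norm_eq
    rw [hn]
    rw [e, fourier_coe_apply]
    have h := Real.norm_exp_I_mul_ofReal_sub_one_le (x := 2 * Real.pi * (x - round x))
    have e2 : Complex.I * ((2 * Real.pi * (x - round x) : ℝ) : ℂ) =
        2 * (Real.pi : ℂ) * Complex.I * ((1 : ℤ) : ℂ) * ((x - round x : ℝ) : ℂ) / ((1 : ℝ) : ℂ) := by
      push_cast; ring
    rw [e2] at h
    refine h.trans (le_of_eq ?_)
    rw [Real.norm_eq_abs, abs_mul, abs_of_pos (by positivity : 0 < 2 * Real.pi)]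

theorem fourier_lip (z w : T) : ‖fourier 1 w - fourier 1 z‖ ≤ 2 * Real.pi * ‖z - w‖ := by
  have h := fourier_lip0 (z - w)
  have e : fourier 1 w - fourier 1 z = -(fourier 1 w * (fourier 1 (z - w) - 1)) := by
    have h2 : fourier 1 w * fourier (-1) w = 1 := by
      rw [← fourier_add']; simp
    rw [fourier_sub]
    linear_combination (-(fourier 1 z)) * h2 * (-1) * (-1) + 2 * (fourier 1 z) * h2
  rw [e, norm_neg, norm_mul, norm_fourier_pt, one_mul]
  exact h

theorem exists_bump (q : ℕ) (hq : 0 < q) (η : ℝ) (hη : 0 < η) :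
    ∃ ρ : C(T, ℝ), (∀ z, 0 ≤ ρ z) ∧ (∀ z, ρ z ≤ 1) ∧ (∀ z, ρ z ≠ 0 → ‖z‖ < 1 / (2 * q)) ∧
      ∀ z, ‖z‖ ≤ (1 - η) / (2 * q) → ρ z = 1 := by
  have hq' : (0 : ℝ) < q := by exact_mod_cast hq
  refine ⟨⟨fun z => max 0 (min 1 ((2 * q / η) * (1 / (2 * q) - ‖z‖))), by fun_prop⟩, ?_, ?_, ?_, ?_⟩
  · intro z; exact le_max_left _ _
  · intro z; exact max_le zero_le_one (min_le_left _ _)
  · intro z hz
    by_contra h
    push Not at h
    apply hz
    have : (2 * q / η) * (1 / (2 * q) - ‖z‖) ≤ 0 :=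
      mul_nonpos_of_nonneg_of_nonpos (by positivity) (by linarith)
    exact max_eq_left ((min_le_right _ _).trans this)
  · intro z hz
    have h1 : (1 : ℝ) ≤ (2 * q / η) * (1 / (2 * q) - ‖z‖) := by
      have h2 : η / (2 * q) ≤ 1 / (2 * q) - ‖z‖ := by
        have : (1 - η) / (2 * q) = 1 / (2 * q) - η / (2 * q) := by ring
        linarith
      calc (1 : ℝ) = (2 * q / η) * (η / (2 * q)) := by field_simp
        _ ≤ _ := by gcongr
    change max 0 (min 1 _) = 1
    rw [min_eq_left h1, max_eq_right zero_le_one]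

theorem exists_trig (f : C(T, ℂ)) (ε : ℝ) (hε : 0 < ε) :
    ∃ (A : ℕ) (ρ : ℤ → ℂ), 1 ≤ A ∧
      ∀ z, ‖∑ κ ∈ Finset.Icc (-(A : ℤ)) A, ρ κ * fourier (-κ) z - f z‖ ≤ ε := by
  have h : f ∈ closure ((Submodule.span ℂ (Set.range (@fourier (1 : ℝ))) : Submodule ℂ C(T, ℂ)) :
      Set C(T, ℂ)) := by
    have := span_fourier_closure_eq_top (T := 1)
    rw [← Submodule.topologicalClosure_coe, this]; trivial
  obtain ⟨p, hp, hd⟩ := Metric.mem_closure_iff.mp h ε hε
  obtain ⟨c, rfl⟩ := (Finsupp.mem_span_range_iff_exists_finsupp).mp hp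
  refine ⟨c.support.sup Int.natAbs + 1, fun κ => c (-κ), by omega, fun z => ?_⟩
  set A : ℕ := c.support.sup Int.natAbs + 1 with hA
  have e1 : ∑ κ ∈ Finset.Icc (-(A : ℤ)) A, c (-κ) * fourier (-κ) z =
      ∑ κ ∈ Finset.Icc (-(A : ℤ)) A, c κ * fourier κ z := by
    refine Finset.sum_bij' (fun κ _ => -κ) (fun κ _ => -κ) ?_ ?_ ?_ ?_ ?_
    · intro κ hκ; simp only [Finset.mem_Icc] at hκ ⊢; omega
    · intro κ hκ; simp only [Finset.mem_Icc] at hκ ⊢; omega
    · intro κ _; simp
    · intro κ _; simp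
    · intro κ _; rfl
  have e2 : (c.sum fun i a => a • fourier i) z = ∑ κ ∈ Finset.Icc (-(A : ℤ)) A, c κ * fourier κ z := by
    rw [Finsupp.sum, ContinuousMap.sum_apply]
    simp only [ContinuousMap.smul_apply, smul_eq_mul]
    refine Finset.sum_subset ?_ ?_
    · intro κ hκ
      have := Finset.le_sup (f := Int.natAbs) hκ
      simp only [Finset.mem_Icc]; omega
    · intro κ _ hκ
      rw [Finsupp.notMem_support_iff.mp hκ, zero_mul]
  rw [e1, ← e2, norm_sub_rev, ← dist_eq_norm]
  exact (ContinuousMap.dist_apply_le_dist z).trans hd.le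

theorem integ {E : Type*} [NormedAddCommGroup E] {f : T → E} (hf : Continuous f) :
    Integrable f haar :=
  hf.integrable_of_hasCompactSupport (HasCompactSupport.of_compactSpace f)

end H732

open H732 in
theorem circle_kernels (δ : ℝ) (hδ : 0 < δ) : ∃ q₀ : ℕ, ∀ (q : ℕ) [NeZero q], q₀ ≤ q →
    ∃ (A : ℕ) (t r : ZMod q → C(T, ℂ)) (ρ : ℤ → ℂ),
      (∀ s, t s ∈ Submodule.span ℂ {f : C(T, ℂ) | ∃ κ : ℤ, |κ| ≤ A ∧ f = fourier κ}) ∧
      (∀ s z, r s z = ∑ κ ∈ Finset.Icc (-(A : ℤ)) A,
        ρ κ * ZMod.stdAddChar ((κ : ZMod q) * s) * fourier (-κ) z) ∧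
      (∀ z, ∑ s, t s z = q) ∧ (∀ z, ∑ s, ZMod.stdAddChar s * t s z = q * fourier 1 z) ∧
      (∀ s, ∫ z, ‖t s z‖ ∂haar ≤ 1 + δ) ∧ (∀ z, ∑ s, ‖r s z‖ ≤ 1 + δ) ∧
      ∀ s', ∑ s, ‖(∫ z, r s z * t s' z ∂haar) - if s = s' then 1 else 0‖ ≤ δ := by
  set η : ℝ := min 1 (δ / 14) with hηdef
  have hη : 0 < η := lt_min one_pos (by linarith)
  have hη1 : η ≤ 1 := min_le_left _ _
  have hηδ : 14 * η ≤ δ := by have := min_le_right 1 (δ / 14); linarith
  refine ⟨⌈4 / η⌉₊ + 2, fun q _ hq => ?_⟩
  have hq2 : 2 ≤ q := by omega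
  have hq0 : (0 : ℝ) < q := by exact_mod_cast (by omega : 0 < q)
  have hq1 : (1 : ℝ) ≤ q := by exact_mod_cast (by omega : 1 ≤ q)
  have hπq : Real.pi / q ≤ η := by
    have h1 : 4 / η ≤ q := (Nat.le_ceil _).trans (by exact_mod_cast (by omega : ⌈4 / η⌉₊ ≤ q))
    rw [div_le_iff₀ hη] at h1
    rw [div_le_iff₀ hq0]
    nlinarith [Real.pi_le_four]
  obtain ⟨ρ0, hb0, hb1, hbs, hbo⟩ := exists_bump q (by omega) η hη
  obtain ⟨A, ρ, hA, hp⟩ := exists_trig ⟨fun z => (ρ0 z : ℂ), by fun_prop⟩ (η / q) (by positivity)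
  set ψ : ZMod q → ℂ := fun s => ZMod.stdAddChar s with hψ
  have hψn : ∀ s, ‖ψ s‖ = 1 := fun s => Circle.norm_coe _
  have hψ1 : (ZMod.stdAddChar : AddChar (ZMod q) ℂ) ≠ 1 := by
    have : Fact (1 < q) := ⟨by omega⟩
    have := ZMod.isPrimitive_stdAddChar q (a := 1) one_ne_zero
    rwa [AddChar.mulShift_one] at this
  have hψ0 : ∑ s, ψ s = 0 := AddChar.sum_eq_zero_of_ne_one hψ1
  have hψ0' : ∑ s, ψ (-s) = 0 := by
    rw [← hψ0]; exact Fintype.sum_equiv (Equiv.neg _) _ _ (fun _ => rfl)
  have hψi : ∀ s, ψ s * ψ (-s) = 1 := by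
    intro s
    simp only [hψ]
    rw [← AddChar.map_add_eq_mul]; simp
  have hcard : (Fintype.card (ZMod q) : ℝ) = q := by rw [ZMod.card]
  set a : ZMod q → T := fun s => ZMod.toAddCircle s with ha
  set b : ZMod q → T → ℝ := fun s z => ρ0 (z - a s) with hb
  have hbc : ∀ s, Continuous (b s) := fun s => by simp only [hb]; fun_prop
  set r : ZMod q → C(T, ℂ) := fun s => ∑ κ ∈ Finset.Icc (-(A : ℤ)) A,
    (ρ κ * ψ ((κ : ZMod q) * s)) • (fourier (-κ) : C(T, ℂ)) with hr
  have hr1 : ∀ s z, r s z = ∑ κ ∈ Finset.Icc (-(A : ℤ)) A,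
      ρ κ * ZMod.stdAddChar ((κ : ZMod q) * s) * fourier (-κ) z := by
    intro s z
    simp only [hr, ContinuousMap.sum_apply, ContinuousMap.smul_apply, smul_eq_mul, hψ]
  have hrb : ∀ s z, ‖r s z - b s z‖ ≤ η / q := by
    intro s z
    have h := hp (z - a s)
    rw [hr1]
    convert h using 3
    · refine Finset.sum_congr rfl fun κ _ => ?_
      rw [fourier_sub, neg_neg, fourier_pt]; ring
    · rfl
  have hdisj : ∀ s s' z, s ≠ s' → b s z * b s' z = 0 := by
    intro s s' z hss
    by_contra h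
    have h1 := hbs _ (left_ne_zero_of_mul h)
    have h2 := hbs _ (right_ne_zero_of_mul h)
    have h3 := norm_pt q (s - s') (sub_ne_zero.mpr hss)
    have e : (ZMod.toAddCircle (s - s') : T) = (z - a s') - (z - a s) := by
      rw [map_sub]; simp only [ha]; abel
    rw [e] at h3
    have h4 := norm_sub_le (z - a s') (z - a s)
    have : 1 / (2 * (q : ℝ)) + 1 / (2 * q) = 1 / q := by field_simp; ring
    linarith
  have hβ1 : ∀ z, ∑ s, b s z ≤ 1 := by
    intro z
    by_cases h : ∃ s, b s z ≠ 0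
    · obtain ⟨s, hs⟩ := h
      rw [Finset.sum_eq_single s]
      · exact hb1 _
      · intro s' _ hs'
        exact (mul_eq_zero.mp (hdisj s' s z hs')).resolve_right hs
      · simp
    · push Not at h
      simp [h]
  have hI1 : ∀ s, (q : ℝ) * ∫ z, b s z ∂haar ≤ 1 := by
    intro s
    have h1 : ∫ z, b s z ∂haar ≤
        ∫ z, (Metric.closedBall (a s) (1 / (2 * q))).indicator (fun _ => (1 : ℝ)) z ∂haar := by
      refine integral_mono (integ (hbc s))
        ((integrable_const _).indicator measurableSet_closedBall) fun z => ?_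
      by_cases hz : b s z = 0
      · rw [hz]; exact Set.indicator_nonneg (fun _ _ => zero_le_one) _
      · rw [Set.indicator_of_mem]
        · exact hb1 _
        · rw [mem_closedBall_iff_norm]; exact (hbs _ hz).le
    have h2 : 2 * (1 / (2 * (q : ℝ))) = 1 / q := by field_simp
    rw [integral_indicator_const _ measurableSet_closedBall, haar_ball _ _ (by positivity)
      (by rw [h2, div_le_one hq0]; exact hq1), h2, smul_eq_mul, mul_one, le_div_iff₀ hq0] at h1
    linarith
  have hI2 : ∀ s, 1 - η ≤ (q : ℝ) * ∫ z, b s z * b s z ∂haar := by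
    intro s
    have h1 : ∫ z, (Metric.closedBall (a s) ((1 - η) / (2 * q))).indicator (fun _ => (1 : ℝ)) z ∂haar
        ≤ ∫ z, b s z * b s z ∂haar := by
      refine integral_mono ((integrable_const _).indicator measurableSet_closedBall)
        (integ ((hbc s).mul (hbc s))) fun z => ?_
      by_cases hz : z ∈ Metric.closedBall (a s) ((1 - η) / (2 * q))
      · rw [Set.indicator_of_mem hz]
        rw [mem_closedBall_iff_norm] at hz
        simp only [hb, hbo _ hz]; norm_num
      · rw [Set.indicator_of_notMem hz]; exact mul_self_nonneg _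
    have h2 : 2 * ((1 - η) / (2 * (q : ℝ))) = (1 - η) / q := by field_simp
    have h3 : 0 ≤ 1 - η := by linarith
    rw [integral_indicator_const _ measurableSet_closedBall, haar_ball _ _ (by positivity)
      (by rw [h2, div_le_one hq0]; linarith), h2, smul_eq_mul, mul_one, div_le_iff₀ hq0] at h1
    linarith
  have hI21 : ∀ s, ∫ z, b s z * b s z ∂haar ≤ ∫ z, b s z ∂haar := by
    intro s
    refine integral_mono (integ ((hbc s).mul (hbc s))) (integ (hbc s)) fun z => ?_
    exact mul_le_of_le_one_right (hb0 _) (hb1 _)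
  have hβc : Continuous fun z => ∑ s, b s z := continuous_finsetSum _ fun s _ => hbc s
  have hβI : 1 - η ≤ ∫ z, ∑ s, b s z ∂haar := by
    rw [integral_finsetSum _ fun s _ => integ (hbc s)]
    have h1 : ∀ s, (1 - η) / q ≤ ∫ z, b s z ∂haar := by
      intro s
      rw [div_le_iff₀ hq0]
      have := hI2 s
      have := mul_le_mul_of_nonneg_left (hI21 s) hq0.le
      linarith
    calc 1 - η = ∑ _s : ZMod q, (1 - η) / q := by
          rw [Finset.sum_const, Finset.card_univ, nsmul_eq_mul, hcard]; field_simp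
      _ ≤ _ := Finset.sum_le_sum fun s _ => h1 s
  have hsumη : ∑ _s : ZMod q, η / q = η := by
    rw [Finset.sum_const, Finset.card_univ, nsmul_eq_mul, hcard]; field_simp
  have hrsum : ∀ z, ∑ s, ‖r s z‖ ≤ 1 + η := by
    intro z
    have h1 : ∀ s, ‖r s z‖ ≤ b s z + η / q := by
      intro s
      have h2 := norm_add_le (b s z : ℂ) (r s z - b s z)
      rw [add_sub_cancel, Complex.norm_real, Real.norm_of_nonneg (hb0 _)] at h2
      linarith [hrb s z]
    calc ∑ s, ‖r s z‖ ≤ ∑ s, (b s z + η / q) := Finset.sum_le_sum fun s _ => h1 s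
      _ = ∑ s, b s z + η := by rw [Finset.sum_add_distrib, hsumη]
      _ ≤ _ := by linarith [hβ1 z]
  set S0 : C(T, ℂ) := ∑ s, r s with hS0
  set S1 : C(T, ℂ) := ∑ s, ψ s • r s with hS1
  set t : ZMod q → C(T, ℂ) := fun s =>
    (q : ℂ) • r s - (S0 - fourier 0) - ψ (-s) • (S1 - fourier 1) with ht
  have ht1 : ∀ s z, t s z = q * r s z - (∑ s, r s z - 1) -
      ψ (-s) * (∑ s, ψ s * r s z - fourier 1 z) := by
    intro s z
    simp only [ht, hS0, hS1, ContinuousMap.sub_apply, ContinuousMap.smul_apply, smul_eq_mul,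
      ContinuousMap.sum_apply, fourier_zero]
  set u : T → ℝ := fun z => 4 * η + 2 * (1 - ∑ s, b s z) with hu
  have huc : Continuous u := by simp only [hu]; fun_prop
  have hu0 : ∀ z, 0 ≤ u z := fun z => by simp only [hu]; linarith [hβ1 z]
  have huI : ∫ z, u z ∂haar ≤ 6 * η := by
    simp only [hu]
    rw [integral_add (integrable_const _) (integ (by fun_prop)), integral_const, integral_const_mul,
      integral_sub (integrable_const _) (integ hβc)]
    simp only [integral_const, probReal_univ, smul_eq_mul, one_mul]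
    linarith
  have hE : ∀ s z, ‖t s z - q * b s z‖ ≤ u z := by
    intro s z
    have hβ : 0 ≤ 1 - ∑ s, b s z := by linarith [hβ1 z]
    have e0 : ‖∑ s, r s z - 1‖ ≤ η + (1 - ∑ s, b s z) := by
      have e : ∑ s, r s z - 1 = ∑ s, (r s z - b s z) - ((1 - ∑ s, b s z : ℝ) : ℂ) := by
        rw [Finset.sum_sub_distrib]; push_cast; ring
      rw [e]
      refine (norm_sub_le _ _).trans (add_le_add ?_ ?_)
      · exact (norm_sum_le _ _).trans ((Finset.sum_le_sum fun s _ => hrb s z).trans hsumη.le)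
      · rw [Complex.norm_real, Real.norm_of_nonneg hβ]
    have e1 : ‖∑ s, ψ s * r s z - fourier 1 z‖ ≤ 2 * η + (1 - ∑ s, b s z) := by
      have e : ∑ s, ψ s * r s z - fourier 1 z = ∑ s, ψ s * (r s z - b s z) +
          ∑ s, (b s z : ℂ) * (ψ s - fourier 1 z) - ((1 - ∑ s, b s z : ℝ) : ℂ) * fourier 1 z := by
        simp only [mul_sub, Finset.sum_sub_distrib, ← Finset.sum_mul]
        push_cast
        simp only [mul_comm (ψ _)]
        ring
      rw [e]
      have f1 : ‖∑ s, ψ s * (r s z - b s z)‖ ≤ η := by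
        refine (norm_sum_le _ _).trans ((Finset.sum_le_sum fun s _ => ?_).trans hsumη.le)
        rw [norm_mul, hψn, one_mul]; exact hrb s z
      have f2 : ‖∑ s, (b s z : ℂ) * (ψ s - fourier 1 z)‖ ≤ η := by
        have g : ∀ s, ‖(b s z : ℂ) * (ψ s - fourier 1 z)‖ ≤ b s z * η := by
          intro s
          rw [norm_mul, Complex.norm_real, Real.norm_of_nonneg (hb0 _)]
          by_cases hz : b s z = 0
          · change b s z * _ ≤ _
            rw [hz]; simp
          · refine mul_le_mul_of_nonneg_left ?_ (hb0 _)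
            have g1 := fourier_lip z (a s)
            have g2 : fourier 1 (a s) = ψ s := by
              simp only [ha, hψ]; rw [fourier_pt]; simp
            rw [g2] at g1
            have g3 := (hbs _ hz).le
            have g4 : 2 * Real.pi * ‖z - a s‖ ≤ 2 * Real.pi * (1 / (2 * q)) := by
              gcongr
            have g5 : 2 * Real.pi * (1 / (2 * (q : ℝ))) = Real.pi / q := by field_simp
            linarith
        refine (norm_sum_le _ _).trans ((Finset.sum_le_sum fun s _ => g s).trans ?_)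
        rw [← Finset.sum_mul]
        exact mul_le_of_le_one_left hη.le (hβ1 z)
      have f3 : ‖((1 - ∑ s, b s z : ℝ) : ℂ) * fourier 1 z‖ = 1 - ∑ s, b s z := by
        rw [norm_mul, norm_fourier_pt, mul_one, Complex.norm_real, Real.norm_of_nonneg hβ]
      have f4 := norm_sub_le (∑ s, ψ s * (r s z - b s z) + ∑ s, (b s z : ℂ) * (ψ s - fourier 1 z))
        (((1 - ∑ s, b s z : ℝ) : ℂ) * fourier 1 z)
      have f5 := norm_add_le (∑ s, ψ s * (r s z - b s z)) (∑ s, (b s z : ℂ) * (ψ s - fourier 1 z))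
      linarith
    have e2 : ‖(q : ℂ) * (r s z - b s z)‖ ≤ η := by
      rw [norm_mul, Complex.norm_natCast]
      have := hrb s z
      rw [le_div_iff₀ hq0] at this
      linarith
    have e : t s z - q * b s z = (q : ℂ) * (r s z - b s z) - (∑ s, r s z - 1) -
        ψ (-s) * (∑ s, ψ s * r s z - fourier 1 z) := by rw [ht1]; ring
    rw [e]
    have f1 := norm_sub_le ((q : ℂ) * (r s z - b s z) - (∑ s, r s z - 1))
      (ψ (-s) * (∑ s, ψ s * r s z - fourier 1 z))
    have f2 := norm_sub_le ((q : ℂ) * (r s z - b s z)) (∑ s, r s z - 1)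
    rw [norm_mul, hψn, one_mul] at f1
    simp only [hu]
    linarith
  have hrspan : ∀ s, r s ∈ Submodule.span ℂ {f : C(T, ℂ) | ∃ κ : ℤ, |κ| ≤ A ∧ f = fourier κ} := by
    intro s
    refine Submodule.sum_mem _ fun κ hκ => Submodule.smul_mem _ _ (Submodule.subset_span ⟨-κ, ?_, rfl⟩)
    rw [Finset.mem_Icc] at hκ
    rw [abs_le]; omega
  refine ⟨A, t, r, ρ, ?_, hr1, ?_, ?_, ?_, ?_, ?_⟩
  · intro s
    refine Submodule.sub_mem _ (Submodule.sub_mem _ (Submodule.smul_mem _ _ (hrspan s))
      (Submodule.sub_mem _ (Submodule.sum_mem _ fun s _ => hrspan s)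
        (Submodule.subset_span ⟨0, by simp, rfl⟩)))
      (Submodule.smul_mem _ _ (Submodule.sub_mem _
        (Submodule.sum_mem _ fun s _ => Submodule.smul_mem _ _ (hrspan s))
        (Submodule.subset_span ⟨1, by simpa using hA, rfl⟩)))
  · intro z
    simp only [ht1]
    rw [Finset.sum_sub_distrib, Finset.sum_sub_distrib, ← Finset.mul_sum, ← Finset.sum_mul, hψ0',
      Finset.sum_const, Finset.card_univ, ZMod.card, nsmul_eq_mul]
    ring
  · intro z
    have e : ∀ s, ZMod.stdAddChar s * t s z = q * (ψ s * r s z) - ψ s * (∑ s, r s z - 1) -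
        (∑ s, ψ s * r s z - fourier 1 z) := by
      intro s
      rw [ht1]
      change ψ s * _ = _
      linear_combination (-(∑ s, ψ s * r s z - fourier 1 z)) * hψi s
    simp only [e]
    rw [Finset.sum_sub_distrib, Finset.sum_sub_distrib, ← Finset.mul_sum, ← Finset.sum_mul, hψ0,
      Finset.sum_const, Finset.card_univ, ZMod.card, nsmul_eq_mul]
    ring
  · intro s
    have h1 : ∫ z, ‖t s z‖ ∂haar ≤ ∫ z, (q * b s z + u z) ∂haar := by
      refine integral_mono (integ (by fun_prop)) (integ (by fun_prop)) fun z => ?_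
      have h2 := norm_add_le ((q : ℂ) * b s z) (t s z - q * b s z)
      rw [add_sub_cancel, norm_mul, Complex.norm_natCast, Complex.norm_real,
        Real.norm_of_nonneg (hb0 _)] at h2
      have := hE s z
      change ‖t s z‖ ≤ q * b s z + u z
      linarith
    rw [integral_add (integ (by fun_prop)) (integ huc), integral_const_mul] at h1
    linarith [hI1 s]
  · intro z
    linarith [hrsum z]
  · intro s'
    set w : ZMod q → T → ℂ := fun s z => r s z * t s' z - ((q * (b s z * b s' z) : ℝ) : ℂ) with hw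
    have hwc : ∀ s, Continuous (w s) := fun s => by
      have := hbc s
      have := hbc s'
      simp only [hw]; fun_prop
    have hw1 : ∀ z, ∑ s, ‖w s z‖ ≤ (1 + η) * u z + η * (q * b s' z) := by
      intro z
      have g : ∀ s, ‖w s z‖ ≤ ‖r s z‖ * u z + η / q * (q * b s' z) := by
        intro s
        have e : w s z = r s z * (t s' z - q * b s' z) + (r s z - b s z) * ((q * b s' z : ℝ) : ℂ) := by
          simp only [hw]; push_cast; ring
        rw [e]
        refine (norm_add_le _ _).trans (add_le_add ?_ ?_)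
        · rw [norm_mul]; exact mul_le_mul_of_nonneg_left (hE s' z) (norm_nonneg _)
        · have hn : 0 ≤ (q : ℝ) * b s' z := mul_nonneg hq0.le (hb0 _)
          rw [norm_mul, Complex.norm_real, Real.norm_of_nonneg hn]
          exact mul_le_mul_of_nonneg_right (hrb s z) hn
      refine (Finset.sum_le_sum fun s _ => g s).trans ?_
      rw [Finset.sum_add_distrib, ← Finset.sum_mul, ← Finset.sum_mul, hsumη]
      have := mul_le_mul_of_nonneg_right (hrsum z) (hu0 z)
      linarith
    have hw2 : ∑ s, ‖∫ z, w s z ∂haar‖ ≤ 13 * η := by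
      have g1 : ∑ s, ‖∫ z, w s z ∂haar‖ ≤ ∫ z, ∑ s, ‖w s z‖ ∂haar := by
        rw [integral_finsetSum _ fun s _ => integ (hwc s).norm]
        exact Finset.sum_le_sum fun s _ => norm_integral_le_integral_norm _
      have hbs' := hbc s'
      have g2 : ∫ z, ∑ s, ‖w s z‖ ∂haar ≤ ∫ z, ((1 + η) * u z + η * (q * b s' z)) ∂haar :=
        integral_mono (integ (continuous_finsetSum _ fun s _ => (hwc s).norm))
          (integ (by fun_prop)) hw1
      rw [integral_add (integ (by fun_prop)) (integ (by fun_prop)), integral_const_mul,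
        integral_const_mul, integral_const_mul] at g2
      have g3 := mul_le_mul_of_nonneg_left huI (by linarith : 0 ≤ 1 + η)
      have g4 := mul_le_mul_of_nonneg_left (hI1 s') hη.le
      nlinarith
    have hw3 : ∀ s, ‖(∫ z, r s z * t s' z ∂haar) - if s = s' then 1 else 0‖ ≤
        ‖∫ z, w s z ∂haar‖ + if s = s' then η else 0 := by
      intro s
      have hbs1 := hbc s
      have hbs' := hbc s'
      have e : ∫ z, w s z ∂haar = ∫ z, r s z * t s' z ∂haar -
          ((q * ∫ z, b s z * b s' z ∂haar : ℝ) : ℂ) := by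
        simp only [hw]
        rw [integral_sub (integ (by fun_prop)) (integ (by fun_prop)), integral_complex_ofReal,
          integral_const_mul]
      have e' : ∫ z, r s z * t s' z ∂haar = ∫ z, w s z ∂haar +
          ((q * ∫ z, b s z * b s' z ∂haar : ℝ) : ℂ) := by rw [e]; ring
      rw [e']
      split_ifs with hss
      · subst hss
        rw [add_sub_assoc]
        refine (norm_add_le _ _).trans (add_le_add le_rfl ?_)
        have : (((q : ℝ) * ∫ z, b s z * b s z ∂haar : ℝ) : ℂ) - 1 =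
            (((q : ℝ) * ∫ z, b s z * b s z ∂haar - 1 : ℝ) : ℂ) := by push_cast; ring
        rw [this, Complex.norm_real, Real.norm_eq_abs, abs_le]
        have h1 := hI2 s
        have h2 := mul_le_mul_of_nonneg_left (hI21 s) hq0.le
        have h3 := hI1 s
        constructor <;> linarith
      · simp [hdisj s s' _ hss]
    refine (Finset.sum_le_sum fun s _ => hw3 s).trans ?_
    rw [Finset.sum_add_distrib, Finset.sum_ite_eq']
    simp only [Finset.mem_univ, if_true]
    linarith

end Pool.Agent.H653Z.HB
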