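import Mathlib

namespace Pool.Agent.H732Z.GKK

/-- The minor of `A` with rows `α` and columns `β`, two increasing index sequences of length `k`. -/
noncomputable def minor {n k : ℕ} (A : Matrix (Fin n) (Fin n) ℂ) (α β : Fin k ↪o Fin n) : ℂ :=
  (A.submatrix α β).det

/-- The complex number `z` is real and positive. -/
def RealPos (z : ℂ) : Prop := z.im = 0 ∧ 0 < z.re

/-- The set of indices occurring in an increasing index sequence. -/
def idx {n k : ℕ} (α : Fin k ↪o Fin n) : Finset (Fin n) := Finset.univ.image α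

/-- The dispersal `#α - #(α ∩ β)` of the minor with rows `α` and columns `β`. -/
def dispersal {n k : ℕ} (α β : Fin k ↪o Fin n) : ℕ := k - (idx α ∩ idx β).card

/-- `A` is a P-matrix: all principal minors are real and positive. -/
def IsPMatrix {n : ℕ} (A : Matrix (Fin n) (Fin n) ℂ) : Prop :=
  ∀ (k : ℕ) (α : Fin k ↪o Fin n), RealPos (minor A α α)

/-- `A` is strict GKK: a P-matrix with `A[α,β] A[β,α] > 0` for every almost principal minor. -/
def IsStrictGKK {n : ℕ} (A : Matrix (Fin n) (Fin n) ℂ) : Prop :=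
  IsPMatrix A ∧
    ∀ (k : ℕ) (α β : Fin k ↪o Fin n), dispersal α β = 1 → RealPos (minor A α β * minor A β α)

/-- `l(B)`: the least real eigenvalue of `B`, and `+∞` if `B` has no real eigenvalue. -/
noncomputable def leastReal {k : ℕ} (B : Matrix (Fin k) (Fin k) ℂ) : EReal :=
  sInf {x : EReal | ∃ r : ℝ, x = (r : EReal) ∧ (r : ℂ) ∈ spectrum ℂ B}

/-- `A` is a tau-matrix: `l(A(α)) ≤ l(A(β)) < ∞` whenever `∅ ≠ β ⊆ α`, and `l(A) ≥ 0`. -/
def IsTau {n : ℕ} (A : Matrix (Fin n) (Fin n) ℂ) : Prop :=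
  (∀ (k m : ℕ) (β : Fin k ↪o Fin n) (α : Fin m ↪o Fin n), 0 < k → idx β ⊆ idx α →
    leastReal (A.submatrix α α) ≤ leastReal (A.submatrix β β) ∧
      leastReal (A.submatrix β β) < ⊤) ∧ 0 ≤ leastReal A

end Pool.Agent.H732Z.GKK
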