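import Pool.Agent.H732Z.GKKDefs

open Matrix
namespace Pool.Agent.H732Z.GKK

def padd : List ℤ → List ℤ → List ℤ
  | [], q => q
  | a :: p, [] => a :: p
  | a :: p, b :: q => (a + b) :: padd p q

def pscale (c : ℤ) (p : List ℤ) : List ℤ := p.map (fun a => c * a)

def pmul : List ℤ → List ℤ → List ℤ
  | [], _ => []
  | a :: p, q => padd (pscale a q) (0 :: pmul p q)

def peval {K : Type*} [CommRing K] (x : K) : List ℤ → K
  | [] => 0
  | a :: p => (a : K) + x * peval x p

def psum : List (List ℤ) → List ℤ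
  | [] => []
  | p :: l => padd p (psum l)

section ev
variable {K : Type*} [CommRing K] (x : K)

theorem peval_padd : ∀ p q : List ℤ, peval x (padd p q) = peval x p + peval x q
  | [], q => by simp [padd, peval]
  | a :: p, [] => by simp [padd, peval]
  | a :: p, b :: q => by
      simp only [padd, peval, peval_padd p q]; push_cast; ring

theorem peval_pscale (c : ℤ) : ∀ p : List ℤ, peval x (pscale c p) = (c : K) * peval x p
  | [] => by simp [pscale, peval]
  | a :: p => by
      have := peval_pscale c p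
      simp only [pscale, List.map_cons, peval] at this ⊢
      rw [this]; push_cast; ring

theorem peval_pmul : ∀ p q : List ℤ, peval x (pmul p q) = peval x p * peval x q
  | [], q => by simp [pmul, peval]
  | a :: p, q => by
      simp only [pmul, peval_padd, peval_pscale, peval, peval_pmul p q]; push_cast; ring

theorem peval_psum : ∀ l : List (List ℤ), peval x (psum l) = (l.map (peval x)).sum
  | [] => by simp [psum, peval]
  | p :: l => by simp [psum, peval_padd, peval_psum l]

end ev

theorem peval_ofReal (y : ℝ) : ∀ p : List ℤ, ((peval y p : ℝ) : ℂ) = peval (y : ℂ) p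
  | [] => by simp [peval]
  | a :: p => by simp [peval, peval_ofReal y p]

theorem peval_cont : ∀ p : List ℤ, Continuous (fun y : ℝ => peval y p)
  | [] => by simp only [peval]; exact continuous_const
  | a :: p => by
      simp only [peval]
      exact continuous_const.add (continuous_id.mul (peval_cont p))

theorem peval_zero {K : Type*} [CommRing K] (p : List ℤ) : peval (0 : K) p = ((p.headD 0 : ℤ) : K) := by
  cases p <;> simp [peval]

theorem peval_nonneg {y : ℝ} (hy : 0 ≤ y) : ∀ p : List ℤ, (∀ a ∈ p, 0 ≤ a) → 0 ≤ peval y p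
  | [], _ => by simp [peval]
  | a :: p, h => by
      have h1 : (0 : ℝ) ≤ a := by exact_mod_cast h a (by simp)
      have h2 := peval_nonneg hy p (fun b hb => h b (by simp [hb]))
      simp only [peval]; positivity

theorem peval_pos {y : ℝ} (hy : 0 ≤ y) (p : List ℤ) (h : ∀ a ∈ p, 0 ≤ a) (h0 : 0 < p.headD 0) :
    0 < peval y p := by
  cases p with
  | nil => simp at h0
  | cons a p =>
      have h1 : (0 : ℝ) < a := by exact_mod_cast h0
      have h2 := peval_nonneg hy p (fun b hb => h b (by simp [hb]))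
      simp only [peval]; positivity

def detP : (k : ℕ) → (Fin k → Fin k → List ℤ) → List ℤ
  | 0, _ => [1]
  | k + 1, M => psum (List.ofFn fun j : Fin (k + 1) =>
      pscale ((-1) ^ (j : ℕ)) (pmul (M 0 j) (detP k (fun a b => M a.succ (j.succAbove b)))))

theorem peval_detP {K : Type*} [CommRing K] (x : K) : ∀ (k : ℕ) (M : Fin k → Fin k → List ℤ),
    peval x (detP k M) = Matrix.det (Matrix.of fun i j => peval x (M i j))
  | 0, M => by simp [detP, peval]
  | k + 1, M => by
      rw [Matrix.det_succ_row_zero, detP, peval_psum, List.map_ofFn, List.sum_ofFn]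
      refine Finset.sum_congr rfl fun j _ => ?_
      simp only [Function.comp, peval_pscale, peval_pmul, peval_detP x k]
      push_cast
      rw [mul_assoc]
      rfl

/-- the integer witness -/
def W : Fin 5 → Fin 5 → ℤ :=
  ![![50000000000, 50000000000, 50000000000, 50000000000, 50000000000],
    ![1000000000, 1010000000, 1000000, 2000, 4],
    ![1000000000, 999999900, 1020000000, 1000000, 2000],
    ![1000000000, 999999900, 999999900, 1030000000, 1000000],
    ![1000000000, 999999900, 999999900, 999999900, 1040000000]]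

noncomputable def A : Matrix (Fin 5) (Fin 5) ℂ := Matrix.of fun i j => (W i j : ℂ)

def Ms (s : ℤ) (i j : Fin 5) : List ℤ := if i = j then [W i j - s, 1] else [W i j]

def D (s : ℤ) (k : ℕ) (l l' : List (Fin 5)) : List ℤ :=
  detP k (fun i j => Ms s (l.getD i 0) (l'.getD j 0))

def sT : List ℤ := [0, 49999999998, 1009999998, 9803882, 1019999998, 19607691, 982984379, 4339138, 1029999998, 29411424, 1009900494, 5438248, 992984379, 9881911, 974883423, 264922, 1039999998, 39215081, 1009999865, 6194176, 1019900494, 11562657, 982971180, 346779, 1002984379, 16068119, 1002835542, 507225, 984883423, 984766, 972564469, 5891]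

def rT : List ℤ := [0, 50000000001, 1010000001, 9803884, 1020000001, 19607693, 982984381, 4339140, 1030000001, 29411426, 1009900496, 5438250, 992984381, 9881913, 974883425, 264924, 1040000001, 39215083, 1009999867, 6194178, 1019900496, 11562659, 982971182, 346781, 1002984381, 16068121, 1002835544, 507227, 984883425, 984768, 972564471, 5893]

def key (l : List (Fin 5)) : ℕ := (l.map (fun i => 2 ^ (i : ℕ))).sum
def sv (l : List (Fin 5)) : ℤ := sT.getD (key l) 0
def rv (l : List (Fin 5)) : ℤ := rT.getD (key l) 0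

def subs : List (List (Fin 5)) := (List.finRange 5).sublists

theorem chkP : ∀ l ∈ subs, 0 < (D 0 l.length l l).headD 0 := by decide +kernel

theorem chkG : ∀ l ∈ subs, ∀ l' ∈ subs, l.length = l'.length →
    l.length - (l.toFinset ∩ l'.toFinset).card = 1 →
    0 < (D 0 l.length l l').headD 0 * (D 0 l.length l' l).headD 0 := by decide +kernel

theorem chkS : ∀ l ∈ subs, l ≠ [] → (∀ a ∈ D (sv l) l.length l l, 0 ≤ a) ∧
    0 < (D (sv l) l.length l l).headD 0 ∧ (D (rv l) l.length l l).headD 0 < 0 ∧ sv l ≤ rv l := by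
  decide +kernel

theorem chkM : ∀ l ∈ subs, ∀ l' ∈ subs, l' ≠ [] → l'.toFinset ⊆ l.toFinset →
    l = l' ∨ rv l ≤ sv l' := by decide +kernel

theorem mem_subs {k : ℕ} (α : Fin k ↪o Fin 5) : List.ofFn α ∈ subs := by
  rw [subs, List.mem_sublists]
  have h1 : (List.ofFn α).SortedLT := List.sortedLT_ofFn_iff.mpr α.strictMono
  refine List.sublist_of_subperm_of_sortedLE ?_ h1.sortedLE (List.sortedLT_finRange 5).sortedLE
  exact List.subperm_of_subset h1.nodup (fun x _ => List.mem_finRange x)

theorem getD_ofFn {k : ℕ} (α : Fin k → Fin 5) (i : Fin k) : (List.ofFn α).getD i 0 = α i := by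
  rw [List.getD_eq_getElem _ _ (by simp)]
  simp

theorem idx_eq {k : ℕ} (α : Fin k ↪o Fin 5) : idx α = (List.ofFn α).toFinset := by
  ext x
  simp [idx, List.mem_ofFn]

theorem minor_eq {k : ℕ} (α β : Fin k ↪o Fin 5) :
    minor A α β = (((D 0 k (List.ofFn α) (List.ofFn β)).headD 0 : ℤ) : ℂ) := by
  rw [← peval_zero, D, peval_detP, minor]
  congr 1
  ext i j
  simp only [Matrix.submatrix_apply, Matrix.of_apply, getD_ofFn, A, Ms]
  split_ifs <;> simp [peval]

theorem det_shift {k : ℕ} (α : Fin k ↪o Fin 5) (s : ℤ) (x : ℝ) :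
    (A.submatrix α α + (-(x : ℂ)) • (1 : Matrix (Fin k) (Fin k) ℂ)).det =
      ((peval ((s : ℝ) - x) (D s k (List.ofFn α) (List.ofFn α)) : ℝ) : ℂ) := by
  rw [peval_ofReal, D, peval_detP]
  congr 1
  ext i j
  simp only [Matrix.submatrix_apply, Matrix.of_apply, getD_ofFn, A, Ms, Matrix.add_apply,
    Matrix.smul_apply, Matrix.one_apply, α.injective.eq_iff]
  split_ifs <;> simp [peval, sub_eq_add_neg]

theorem spec_iff {k : ℕ} (B : Matrix (Fin k) (Fin k) ℂ) (μ : ℂ) :
    μ ∈ spectrum ℂ B ↔ (B + (-μ) • (1 : Matrix (Fin k) (Fin k) ℂ)).det = 0 := by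
  rw [spectrum.mem_iff, Matrix.isUnit_iff_isUnit_det, isUnit_iff_ne_zero, not_not]
  have e : (algebraMap ℂ (Matrix (Fin k) (Fin k) ℂ)) μ - B =
      -(B + (-μ) • (1 : Matrix (Fin k) (Fin k) ℂ)) := by
    rw [Algebra.algebraMap_eq_smul_one, neg_smul]; abel
  rw [e, Matrix.det_neg]
  simp

theorem spec_real {k : ℕ} (α : Fin k ↪o Fin 5) (s : ℤ) (x : ℝ) :
    (x : ℂ) ∈ spectrum ℂ (A.submatrix α α) ↔
      peval ((s : ℝ) - x) (D s k (List.ofFn α) (List.ofFn α)) = 0 := by
  rw [spec_iff, det_shift α s x]
  exact Complex.ofReal_eq_zero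

theorem shift_eq {k : ℕ} (α : Fin k ↪o Fin 5) (s t : ℤ) (x : ℝ) :
    peval ((s : ℝ) - x) (D s k (List.ofFn α) (List.ofFn α)) =
      peval ((t : ℝ) - x) (D t k (List.ofFn α) (List.ofFn α)) := by
  have h := (det_shift α s x).symm.trans (det_shift α t x)
  exact_mod_cast h

theorem root_between {k : ℕ} (α : Fin k ↪o Fin 5) (s t : ℤ) (hst : s ≤ t)
    (h : (D s k (List.ofFn α) (List.ofFn α)).headD 0 * (D t k (List.ofFn α) (List.ofFn α)).headD 0 < 0) :
    ∃ x : ℝ, (s : ℝ) ≤ x ∧ x ≤ t ∧ (x : ℂ) ∈ spectrum ℂ (A.submatrix α α) := by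
  set G : ℝ → ℝ := fun x => peval (((0 : ℤ) : ℝ) - x) (D 0 k (List.ofFn α) (List.ofFn α)) with hG
  have hc : Continuous G := (peval_cont _).comp (continuous_const.sub continuous_id)
  have hv : ∀ u : ℤ, G u = (((D u k (List.ofFn α) (List.ofFn α)).headD 0 : ℤ) : ℝ) := by
    intro u
    simp only [hG]
    rw [shift_eq α 0 u, sub_self, peval_zero]
  have hst' : (s : ℝ) ≤ t := by exact_mod_cast hst
  have h' : G s * G t < 0 := by rw [hv, hv]; exact_mod_cast h
  have : ∃ x ∈ Set.Icc (s : ℝ) t, G x = 0 := by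
    rcases lt_or_ge (G s) 0 with h1 | h1
    · have h2 : 0 ≤ G t := by nlinarith
      exact intermediate_value_Icc hst' hc.continuousOn ⟨h1.le, h2⟩
    · have h2 : G t ≤ 0 := by
        by_contra h3
        push Not at h3
        nlinarith
      exact intermediate_value_Icc' hst' hc.continuousOn ⟨h2, h1⟩
  obtain ⟨x, hx, hx0⟩ := this
  exact ⟨x, hx.1, hx.2, (spec_real α 0 x).mpr hx0⟩

theorem least_bounds {k : ℕ} (α : Fin k ↪o Fin 5) (hk : 0 < k) :
    (((sv (List.ofFn α) : ℤ) : ℝ) : EReal) ≤ leastReal (A.submatrix α α) ∧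
      leastReal (A.submatrix α α) ≤ (((rv (List.ofFn α) : ℤ) : ℝ) : EReal) := by
  have hne : List.ofFn α ≠ [] := by
    intro h
    have := congrArg List.length h
    simp at this
    omega
  obtain ⟨h1, h2, h3, h4⟩ := chkS _ (mem_subs α) hne
  rw [List.length_ofFn] at h1 h2 h3
  constructor
  · apply le_sInf
    rintro x ⟨r, rfl, hr⟩
    rw [EReal.coe_le_coe_iff]
    by_contra hlt
    push Not at hlt
    rw [spec_real α (sv (List.ofFn α)) r] at hr
    exact (peval_pos (by linarith) _ h1 h2).ne' hr
  · obtain ⟨x, _, hx2, hx3⟩ := root_between α _ _ h4 (mul_neg_of_pos_of_neg h2 h3)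
    have h5 : leastReal (A.submatrix α α) ≤ (x : EReal) := sInf_le ⟨x, rfl, hx3⟩
    exact h5.trans (EReal.coe_le_coe_iff.mpr hx2)

theorem A_strict : IsStrictGKK A := by
  constructor
  · intro k α
    rw [minor_eq]
    have h := chkP _ (mem_subs α)
    rw [List.length_ofFn] at h
    exact ⟨Complex.intCast_im _, by rw [Complex.intCast_re]; exact_mod_cast h⟩
  · intro k α β hd
    rw [minor_eq, minor_eq, ← Int.cast_mul]
    have h := chkG _ (mem_subs α) _ (mem_subs β) (by simp) (by
      rw [List.length_ofFn, ← idx_eq, ← idx_eq]; exact hd)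
    rw [List.length_ofFn] at h
    exact ⟨Complex.intCast_im _, by rw [Complex.intCast_re]; exact_mod_cast h⟩

def e5 : Fin 5 ↪o Fin 5 := RelEmbedding.refl (α := Fin 5) (· ≤ ·)

theorem sub_e5 : A.submatrix e5 e5 = A := rfl

theorem ofFn_e5 : List.ofFn e5 = List.finRange 5 := by decide

theorem A_tau : IsTau A := by
  constructor
  · intro k m β α hk hsub
    have hb := least_bounds β hk
    refine ⟨?_, hb.2.trans_lt (EReal.coe_lt_top _)⟩
    have hne : List.ofFn β ≠ [] := by
      intro h
      have := congrArg List.length h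
      simp at this
      omega
    rw [idx_eq, idx_eq] at hsub
    rcases chkM _ (mem_subs α) _ (mem_subs β) hne hsub with h | h
    · have hl := congrArg List.length h
      simp only [List.length_ofFn] at hl
      subst hl
      have h2 : (α : Fin m → Fin 5) = β := List.ofFn_injective h
      rw [h2]
    · have hm : 0 < m := by
        rcases Nat.eq_zero_or_pos m with rfl | hm
        · obtain ⟨x, hx⟩ := List.exists_mem_of_ne_nil _ hne
          have := hsub (List.mem_toFinset.mpr hx)
          simp at this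
        · exact hm
      have ha := least_bounds α hm
      refine ha.2.trans (le_trans ?_ hb.1)
      rw [EReal.coe_le_coe_iff]
      exact_mod_cast h
  · have h := (least_bounds e5 (by norm_num)).1
    rw [sub_e5, ofFn_e5] at h
    refine le_trans ?_ h
    have : (0 : ℤ) ≤ sv (List.finRange 5) := by decide +kernel
    exact_mod_cast this

theorem A_unstable : ∃ μ ∈ spectrum ℂ A, μ.re < 0 := by
  by_contra hcon
  push Not at hcon
  obtain ⟨x, hx1, hx2, hx⟩ := root_between e5 232000000 233000000 (by norm_num)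
    (by rw [ofFn_e5]; decide +kernel)
  obtain ⟨y, hy1, _, hy⟩ := root_between e5 53890000000 53900000000 (by norm_num)
    (by rw [ofFn_e5]; decide +kernel)
  rw [sub_e5] at hx hy
  have hne : A.charpoly ≠ 0 := (Matrix.charpoly_monic A).ne_zero
  have hmem : ∀ μ, μ ∈ A.charpoly.roots ↔ μ ∈ spectrum ℂ A := by
    intro μ
    rw [Polynomial.mem_roots hne, Matrix.mem_spectrum_iff_isRoot_charpoly]
  have htr := Matrix.trace_eq_sum_roots_charpoly A
  obtain ⟨R1, hR1⟩ := Multiset.exists_cons_of_mem ((hmem _).mpr hx)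
  have hxy : (y : ℂ) ≠ x := by
    intro h
    have : y = x := by exact_mod_cast h
    push_cast at hx2 hy1
    linarith
  have hy' : (y : ℂ) ∈ R1 := by
    have := (hmem _).mpr hy
    rw [hR1, Multiset.mem_cons] at this
    exact this.resolve_left hxy
  obtain ⟨R2, hR2⟩ := Multiset.exists_cons_of_mem hy'
  have hpos : 0 ≤ R2.sum.re := by
    have : ∀ μ ∈ R2, 0 ≤ μ.re := by
      intro μ hμ
      apply hcon
      rw [← hmem, hR1, hR2]
      simp [hμ]
    have h2 := Multiset.sum_nonneg (s := R2.map Complex.re) (by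
      intro r hr
      obtain ⟨μ, hμ, rfl⟩ := Multiset.mem_map.mp hr
      exact this μ hμ)
    have h3 := map_multiset_sum Complex.reAddGroupHom R2
    simp only [Complex.coe_reAddGroupHom] at h3
    rw [h3]; exact h2
  have ht : A.trace.re = 54100000000 := by
    simp [Matrix.trace, Fin.sum_univ_succ, A, W]
    norm_num
  rw [htr, hR1, hR2] at ht
  simp only [Multiset.sum_cons, Complex.add_re, Complex.ofReal_re] at ht
  push_cast at hx1 hy1
  linarith

theorem main : ∃ B : Matrix (Fin 5) (Fin 5) ℂ, IsStrictGKK B ∧ IsTau B ∧ ∃ μ ∈ spectrum ℂ B, μ.re < 0 :=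
  ⟨A, A_strict, A_tau, A_unstable⟩

end Pool.Agent.H732Z.GKK
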